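import Pool.Agent.Work.MP_82fd4a_nt.E.Main

/-! Products of exactly `k` distinct primes below the scale of the conjecture of Andrica. -/

set_option autoImplicit false

theorem Pool.Agent.Results.MP_82fd4a_nt.AlmostPrimeGaps.result :
    ∀ A : ℕ, ∃ k₀ : ℕ, ∀ k : ℕ, k₀ ≤ k → ∃ t₀ : ℝ, ∀ t : ℝ, t₀ ≤ t → ∃ n : ℕ,
      t < (n : ℝ) ∧ Real.sqrt n - Real.sqrt t < 1 / Real.log t ^ A ∧ Squarefree n ∧
        n.primeFactors.card = k :=
  fun A => Pool.Agent.Work.MP_82fd4a_nt.E.almost_prime_gaps A
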