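import Pool.Agent.Work.MP_82fd4a_nt.NMain

/-! At the scale of the conjecture of Andrica there are integers with a large prime factor. -/

set_option autoImplicit false

theorem Pool.Agent.Results.MP_82fd4a_nt.LargePrimeFactor.result :
    ∀ θ : ℝ, θ < 25 / 26 → ∃ C : ℝ, ∀ t : ℝ, 1 ≤ t → ∃ n p : ℕ,
      t < (n : ℝ) ∧ Real.sqrt n - Real.sqrt t < C ∧ p.Prime ∧ p ∣ n ∧ (n : ℝ) ^ θ < (p : ℝ) :=
  fun _ hθ => Pool.Agent.Work.MP_82fd4a_nt.large_prime_factor2 hθ
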