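import Pool.Agent.Work.MP_82fd4a_nt.P.SFinal
import Pool.Agent.Work.MP_82fd4a_nt.P.H.Fin

namespace Pool.Agent.Results.MP_82fd4a_nt.PrimeGap

open Pool.Agent.Work.MP_82fd4a_nt

/-- Primes in the intervals `(x, x + x ^ θ]` for every `θ > 517 / 1000`. -/
theorem result (θ : ℝ) (h0 : 517 / 1000 < θ) (h1 : θ < 1) :
    ∃ c : ℝ, 0 < c ∧ ∃ x₀ : ℝ, ∀ x : ℝ, x₀ ≤ x →
      c * x ^ θ / Real.log x ≤
        (((Finset.Ioc ⌊x⌋₊ ⌊x + x ^ θ⌋₊).filter Nat.Prime).card : ℝ) := by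
  have hP : P.Par.Fit ⟨90, 256, 768, 23, 11129⟩ :=
    ⟨by norm_num, by norm_num, by norm_num, by norm_num, by norm_num, by norm_num, by norm_num,
      by norm_num, P.clo_D (by norm_num [P.Par.ex]) (by norm_num [P.Par.ex]) (by norm_num)⟩
  refine P.count_of_fit hP P.H.cert (lt_trans ?_ h0) h1
  norm_num [P.Par.ex]

end Pool.Agent.Results.MP_82fd4a_nt.PrimeGap
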