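import Pool.Agent.Work.MP_82fd4a_nt.Y.Main
import Pool.Agent.Work.MP_82fd4a_nt.Y.Num

/-! Integers with a large prime factor below the scale of the conjecture of Andrica. -/

set_option autoImplicit false

theorem Pool.Agent.Results.MP_82fd4a_nt.RamachandraScale.result :
    ∀ θ : ℝ, θ < 12 / 13 → ∀ c : ℝ, 0 < c → ∃ t₀ : ℝ, ∀ t : ℝ, t₀ ≤ t → ∃ n p : ℕ,
      t < (n : ℝ) ∧ Real.sqrt n - Real.sqrt t < c ∧ p.Prime ∧ p ∣ n ∧ (n : ℝ) ^ θ < (p : ℝ) :=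
  fun _ hθ _ hc => Pool.Agent.Work.MP_82fd4a_nt.Y.small_scale3
    Pool.Agent.Work.MP_82fd4a_nt.Y.tab_T0 hθ hc
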